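import Mathlib
import Pool.Agent.H.MP_41e59e_gt.A

open Set Topology

namespace Pool.Agent.Results.MP_41e59e_gt.NoSuitable

theorem result : ∃ (G : Type) (_ : AddCommGroup G) (_ : TopologicalSpace G),
    IsTopologicalAddGroup G ∧ T35Space G ∧
    (∃ _ : LinearOrder G, OrderTopology G) ∧
    TotallyDisconnectedSpace G ∧
    ¬ TopologicalSpace.SeparableSpace G ∧
    ¬ (∀ x : G, IsGδ ({x} : Set G)) ∧
    ¬ ∃ S : Set G, DiscreteTopology S ∧ IsClosed (S ∪ {0}) ∧
      Dense (AddSubgroup.closure S : Set G) :=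
  ⟨H.MP_41e59e_gt.G, inferInstance, inferInstance, inferInstance, inferInstance,
    ⟨inferInstance, inferInstance⟩, H.MP_41e59e_gt.totDisc, H.MP_41e59e_gt.not_sep,
    fun h => H.MP_41e59e_gt.not_gdelta (h 0),
    fun ⟨S, h1, h2, h3⟩ => H.MP_41e59e_gt.no_suitable S h1 h2 h3⟩

end Pool.Agent.Results.MP_41e59e_gt.NoSuitable
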